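import Mathlib

set_option autoImplicit false

/-! Discrete cube: the degree-one improvement of the Poincaré inequality. -/

namespace Pool.Agent.R194.HC

/-- flip coordinate `i` -/
def flip {n : ℕ} (x : Fin n → Bool) (i : Fin n) : Fin n → Bool := Function.update x i (!x i)

/-- sign of coordinate `i` -/
def chi {n : ℕ} (x : Fin n → Bool) (i : Fin n) : ℝ := if x i then 1 else -1

def S {n : ℕ} (g : (Fin n → Bool) → ℝ) : ℝ := ∑ x, g x
def Q {n : ℕ} (g : (Fin n → Bool) → ℝ) : ℝ := ∑ x, g x ^ 2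
def D {n : ℕ} (g : (Fin n → Bool) → ℝ) (i : Fin n) : ℝ := ∑ x, (g x - g (flip x i)) ^ 2
def C {n : ℕ} (g : (Fin n → Bool) → ℝ) (i : Fin n) : ℝ := ∑ x, g x * chi x i

lemma sum_cube_succ {n : ℕ} (h : (Fin (n+1) → Bool) → ℝ) :
    ∑ x, h x = ∑ y : Fin n → Bool, (h (Fin.cons true y) + h (Fin.cons false y)) := by
  rw [← (Fin.consEquiv (fun _ : Fin (n+1) => Bool)).sum_comp, Fintype.sum_prod_type,
    Fintype.sum_bool, ← Finset.sum_add_distrib]
  rfl

variable {n : ℕ} (g : (Fin (n+1) → Bool) → ℝ)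

/-- sum of the two halves -/
def U (y : Fin n → Bool) : ℝ := g (Fin.cons true y) + g (Fin.cons false y)
/-- difference of the two halves -/
def V (y : Fin n → Bool) : ℝ := g (Fin.cons true y) - g (Fin.cons false y)

lemma S_succ : S g = S (U g) := by
  unfold S U; rw [sum_cube_succ]

lemma Q_succ : Q g = (Q (U g) + Q (V g)) / 2 := by
  unfold Q U V
  rw [sum_cube_succ, ← Finset.sum_add_distrib, Finset.sum_div]
  refine Finset.sum_congr rfl fun y _ => ?_
  ring

lemma flip_cons_zero (b : Bool) (y : Fin n → Bool) :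
    flip (Fin.cons b y : Fin (n+1) → Bool) 0 = Fin.cons (!b) y := by
  unfold flip
  rw [Fin.cons_zero, Fin.update_cons_zero]

lemma flip_cons_succ (b : Bool) (y : Fin n → Bool) (i : Fin n) :
    flip (Fin.cons b y : Fin (n+1) → Bool) i.succ = Fin.cons b (flip y i) := by
  unfold flip
  rw [Fin.cons_succ, Fin.cons_update]

lemma D_zero : D g 0 = 2 * Q (V g) := by
  unfold D Q V
  rw [sum_cube_succ, Finset.mul_sum]
  refine Finset.sum_congr rfl fun y _ => ?_
  rw [flip_cons_zero, flip_cons_zero]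
  simp only [Bool.not_true, Bool.not_false]
  ring

lemma D_succ (i : Fin n) : D g i.succ = (D (U g) i + D (V g) i) / 2 := by
  unfold D U V
  rw [sum_cube_succ, ← Finset.sum_add_distrib, Finset.sum_div]
  refine Finset.sum_congr rfl fun y _ => ?_
  rw [flip_cons_succ, flip_cons_succ]
  ring

lemma C_zero : C g 0 = S (V g) := by
  unfold C S V chi
  rw [sum_cube_succ]
  refine Finset.sum_congr rfl fun y _ => ?_
  simp only [Fin.cons_zero]
  simp
  ring

lemma C_succ (i : Fin n) : C g i.succ = C (U g) i := by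
  unfold C U chi
  rw [sum_cube_succ]
  refine Finset.sum_congr rfl fun y _ => ?_
  simp only [Fin.cons_succ]
  ring

lemma D_nonneg {m : ℕ} (h : (Fin m → Bool) → ℝ) (i : Fin m) : 0 ≤ D h i :=
  Finset.sum_nonneg fun _ _ => sq_nonneg _

lemma poincare : ∀ (m : ℕ) (h : (Fin m → Bool) → ℝ),
    4 * 2 ^ m * Q h ≤ 2 ^ m * ∑ i, D h i + 4 * S h ^ 2 := by
  intro m
  induction m with
  | zero =>
    intro h
    simp [Q, S]
  | succ m ih =>
    intro h
    have h1 := ih (U h)
    have h2 : 0 ≤ ∑ i, D (V h) i := Finset.sum_nonneg fun i _ => D_nonneg _ i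
    rw [Fin.sum_univ_succ, D_zero, S_succ, Q_succ]
    simp only [D_succ]
    rw [← Finset.sum_div, Finset.sum_add_distrib, pow_succ]
    have h3 : (0:ℝ) ≤ 2 ^ m * ∑ i, D (V h) i := mul_nonneg (by positivity) h2
    nlinarith [h1, h3]

lemma level_two : ∀ (m : ℕ) (h : (Fin m → Bool) → ℝ),
    8 * 2 ^ m * Q h ≤ 2 ^ m * ∑ i, D h i + 4 * ∑ i, C h i ^ 2 + 8 * S h ^ 2 := by
  intro m
  induction m with
  | zero =>
    intro h
    simp [Q, S]
  | succ m ih =>
    intro h
    have h1 := ih (U h)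
    have h2 := poincare m (V h)
    rw [Fin.sum_univ_succ, Fin.sum_univ_succ, D_zero, C_zero, S_succ, Q_succ]
    simp only [D_succ, C_succ]
    rw [← Finset.sum_div, Finset.sum_add_distrib, pow_succ]
    nlinarith [h1, h2]

end Pool.Agent.R194.HC
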