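import Mathlib
import Pool.Agent.R194.HC.Fourier

set_option autoImplicit false

namespace Pool.Agent.R194.HC

open Finset

variable {n : ℕ}

/-- the set of true coordinates -/
def supp (x : Fin n → Bool) : Finset (Fin n) := univ.filter (fun i => x i = true)

def suppEquiv (n : ℕ) : (Fin n → Bool) ≃ Finset (Fin n) where
  toFun := supp
  invFun s := fun i => decide (i ∈ s)
  left_inv := by intro x; funext i; simp [supp]
  right_inv := by intro s; ext i; simp [supp]

lemma mem_supp (x : Fin n → Bool) (i : Fin n) : i ∈ supp x ↔ x i = true := by simp [supp]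

lemma supp_flip (x : Fin n → Bool) (i : Fin n) : supp (flip x i) = symmDiff (supp x) {i} := by
  ext j
  rw [mem_supp, Finset.mem_symmDiff, mem_supp, Finset.mem_singleton]
  unfold flip
  by_cases h : j = i
  · subst h; simp
  · rw [Function.update_of_ne h]; simp [h]

/-- flipping one element, as a permutation -/
def T (i : Fin n) : Equiv.Perm (Finset (Fin n)) :=
  Function.Involutive.toPerm (fun s => symmDiff s {i}) (fun s => by
    simp [symmDiff_assoc])

lemma T_apply (i : Fin n) (s : Finset (Fin n)) : T i s = symmDiff s {i} := rfl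
lemma T_T (i : Fin n) (s : Finset (Fin n)) : T i (T i s) = s := by
  simp [T_apply, symmDiff_assoc]

/-- indicator -/
def a (F : Finset (Finset (Fin n))) (s : Finset (Fin n)) : ℝ := if s ∈ F then 1 else 0
/-- sign -/
def X (i : Fin n) (s : Finset (Fin n)) : ℝ := if i ∈ s then 1 else -1

lemma X_T (i : Fin n) (s : Finset (Fin n)) : X i (T i s) = - X i s := by
  unfold X; simp only [T_apply, Finset.mem_symmDiff]
  by_cases h : i ∈ s <;> simp [h]

lemma sum_X (i : Fin n) : ∑ s, X i s = 0 := by
  have h := Equiv.sum_comp (T i) (X i)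
  simp only [X_T, Finset.sum_neg_distrib] at h
  linarith

lemma card_eq (F : Finset (Finset (Fin n))) : (F.card : ℝ) = ∑ s, a F s := by
  unfold a; simp

def b (F : Finset (Finset (Fin n))) (i : Fin n) : ℝ := ∑ s, a F s * (1 - a F (T i s))
def c (F : Finset (Finset (Fin n))) (i : Fin n) : ℝ := ∑ s, a F s * X i s

lemma a_cases (F : Finset (Finset (Fin n))) (s : Finset (Fin n)) : a F s = 0 ∨ a F s = 1 := by
  unfold a; split_ifs <;> simp

lemma b_symm (F : Finset (Finset (Fin n))) (i : Fin n) :
    ∑ s, a F (T i s) * (1 - a F s) = b F i := by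
  unfold b
  rw [← Equiv.sum_comp (T i)]
  refine Finset.sum_congr rfl fun s _ => ?_
  rw [T_T]

lemma abs_c_le (F : Finset (Finset (Fin n))) (i : Fin n) : |c F i| ≤ b F i := by
  have h1 : 2 * c F i = ∑ s, (a F s - a F (T i s)) * X i s := by
    have h2 : c F i = ∑ s, a F (T i s) * X i (T i s) := by
      unfold c; rw [← Equiv.sum_comp (T i)]
    have h3 : c F i = ∑ s, a F s * X i s := rfl
    have h4 : 2 * c F i = ∑ s, a F s * X i s + ∑ s, a F (T i s) * X i (T i s) := by
      rw [← h2, ← h3]; ring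
    rw [h4, ← Finset.sum_add_distrib]
    refine Finset.sum_congr rfl fun s _ => ?_
    rw [X_T]; ring
  have h5 : |2 * c F i| ≤ ∑ s, (a F s * (1 - a F (T i s)) + a F (T i s) * (1 - a F s)) := by
    rw [h1]
    refine (Finset.abs_sum_le_sum_abs _ _).trans (Finset.sum_le_sum fun s _ => ?_)
    have hX : |X i s| = 1 := by unfold X; split_ifs <;> simp
    rw [abs_mul, hX, mul_one]
    rcases a_cases F s with h | h <;> rcases a_cases F (T i s) with h' | h' <;> simp [h, h']
  rw [Finset.sum_add_distrib, b_symm, abs_mul] at h5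
  have h6 : ∑ s, a F s * (1 - a F (T i s)) = b F i := rfl
  rw [h6] at h5
  have h7 : |(2:ℝ)| = 2 := by norm_num
  rw [h7] at h5
  linarith

/-- the ±1 function of a family -/
def g (F : Finset (Finset (Fin n))) (x : Fin n → Bool) : ℝ := 2 * a F (supp x) - 1

lemma sum_supp (h : Finset (Fin n) → ℝ) : ∑ x : Fin n → Bool, h (supp x) = ∑ s, h s :=
  (suppEquiv n).sum_comp h

lemma S_g (F : Finset (Finset (Fin n))) : S (g F) = 2 * F.card - 2 ^ n := by
  unfold S g
  rw [sum_supp (fun s => 2 * a F s - 1), Finset.sum_sub_distrib, ← Finset.mul_sum, ← card_eq]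
  simp

lemma Q_g (F : Finset (Finset (Fin n))) : Q (g F) = 2 ^ n := by
  unfold Q g
  rw [sum_supp (fun s => (2 * a F s - 1) ^ 2)]
  have : ∀ s, (2 * a F s - 1) ^ 2 = 1 := by
    intro s
    rcases a_cases F s with h | h <;> rw [h] <;> norm_num
  simp [this]

lemma D_g (F : Finset (Finset (Fin n))) (i : Fin n) : D (g F) i = 8 * b F i := by
  unfold D g
  simp only [supp_flip, ← T_apply]
  rw [sum_supp (fun s => (2 * a F s - 1 - (2 * a F (T i s) - 1)) ^ 2)]
  have : ∀ s, (2 * a F s - 1 - (2 * a F (T i s) - 1)) ^ 2 =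
      4 * (a F s * (1 - a F (T i s))) + 4 * (a F (T i s) * (1 - a F s)) := by
    intro s
    rcases a_cases F s with h | h <;> rcases a_cases F (T i s) with h' | h' <;> rw [h, h'] <;>
      norm_num
  simp only [this]
  rw [Finset.sum_add_distrib, ← Finset.mul_sum, ← Finset.mul_sum, b_symm]
  have h6 : ∑ s, a F s * (1 - a F (T i s)) = b F i := rfl
  rw [h6]; ring

lemma C_g (F : Finset (Finset (Fin n))) (i : Fin n) : C (g F) i = 2 * c F i := by
  unfold C g
  have h : ∀ x : Fin n → Bool, chi x i = X i (supp x) := by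
    intro x; unfold chi X; simp only [mem_supp]
  simp only [h]
  rw [sum_supp (fun s => (2 * a F s - 1) * X i s)]
  have : ∀ s, (2 * a F s - 1) * X i s = 2 * (a F s * X i s) - X i s := by intro s; ring
  simp only [this]
  rw [Finset.sum_sub_distrib, ← Finset.mul_sum, sum_X, sub_zero]
  rfl

/-- the main inequality for balanced families -/
lemma main_ineq (F : Finset (Finset (Fin n))) (hF : 2 * F.card = 2 ^ n) (M : ℝ)
    (hM : ∀ i, |c F i| ≤ M) :
    (2:ℝ) ^ n * 2 ^ n ≤ 2 ^ n * ∑ i, b F i + 2 * M * ∑ i, b F i := by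
  have h := level_two n (g F)
  have hF' : (2:ℝ) * F.card = 2 ^ n := by exact_mod_cast hF
  rw [Q_g, S_g, hF', sub_self] at h
  simp only [D_g, C_g] at h
  rw [← Finset.mul_sum] at h
  have h1 : ∑ i, (2 * c F i) ^ 2 ≤ 4 * (M * ∑ i, b F i) := by
    rw [Finset.mul_sum, Finset.mul_sum]
    refine Finset.sum_le_sum fun i _ => ?_
    have h2 := hM i
    have h3 := abs_c_le F i
    have h4 : c F i ^ 2 = |c F i| * |c F i| := by rw [← sq, sq_abs]
    have h5 : |c F i| * |c F i| ≤ M * b F i :=
      mul_le_mul h2 h3 (abs_nonneg _) ((abs_nonneg _).trans h2)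
    nlinarith
  nlinarith

lemma card_symmDiff_real (F G : Finset (Finset (Fin n))) :
    ((symmDiff F G).card : ℝ) = ∑ s, (a F s + a G s - 2 * (a F s * a G s)) := by
  rw [card_eq]
  refine Finset.sum_congr rfl fun s _ => ?_
  unfold a
  by_cases h : s ∈ F <;> by_cases h' : s ∈ G <;> simp [Finset.mem_symmDiff, h, h']
  norm_num

/-- distance to a half cube, with a sign -/
lemma dist_pos (F G : Finset (Finset (Fin n))) (hF : 2 * F.card = 2 ^ n) (i : Fin n)
    (hG : ∀ t, t ∈ G ↔ i ∈ t) : ((symmDiff F G).card : ℝ) = 2 ^ n / 2 - c F i := by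
  have hF' : (2:ℝ) * F.card = 2 ^ n := by exact_mod_cast hF
  have h1 : ∀ s, a F s + a G s - 2 * (a F s * a G s) = 1 / 2 + (1 / 2) * X i s
      - a F s * X i s := by
    intro s
    have : a G s = (1 + X i s) / 2 := by
      unfold a X; by_cases h : i ∈ s <;> simp [hG, h]
    rw [this]; ring
  rw [card_symmDiff_real]
  simp only [h1]
  rw [Finset.sum_sub_distrib, Finset.sum_add_distrib, ← Finset.mul_sum, sum_X]
  have h2 : ∑ s, a F s * X i s = c F i := rfl
  rw [h2]
  simp
  ring

lemma dist_neg (F G : Finset (Finset (Fin n))) (hF : 2 * F.card = 2 ^ n) (i : Fin n)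
    (hG : ∀ t, t ∈ G ↔ i ∉ t) : ((symmDiff F G).card : ℝ) = 2 ^ n / 2 + c F i := by
  have h1 : ∀ s, a F s + a G s - 2 * (a F s * a G s) = 1 / 2 - (1 / 2) * X i s
      + a F s * X i s := by
    intro s
    have : a G s = (1 - X i s) / 2 := by
      unfold a X; by_cases h : i ∈ s <;> simp [hG, h] <;> norm_num
    rw [this]; ring
  rw [card_symmDiff_real]
  simp only [h1]
  rw [Finset.sum_add_distrib, Finset.sum_sub_distrib, ← Finset.mul_sum, sum_X]
  have h2 : ∑ s, a F s * X i s = c F i := rfl
  rw [h2]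
  simp
  ring

/-- the boundary count of the problem -/
lemma bdry_eq (F : Finset (Finset (Fin n))) :
    (((F ×ˢ (Finset.univ : Finset (Fin n))).filter
      (fun p => symmDiff p.1 {p.2} ∉ F)).card : ℝ) = ∑ i, b F i := by
  rw [Finset.card_filter, Finset.sum_product_right]
  push_cast
  refine Finset.sum_congr rfl fun i _ => ?_
  unfold b
  rw [← Finset.sum_filter_add_sum_filter_not univ (fun s => s ∈ F)
    (fun s => a F s * (1 - a F (T i s)))]
  have h0 : ∑ s ∈ univ.filter (fun s => ¬ s ∈ F), a F s * (1 - a F (T i s)) = 0 := by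
    refine Finset.sum_eq_zero fun s hs => ?_
    have : a F s = 0 := by unfold a; simp [(Finset.mem_filter.mp hs).2]
    rw [this, zero_mul]
  rw [h0, add_zero]
  have h1 : univ.filter (fun s => s ∈ F) = F := by ext; simp
  rw [h1]
  refine Finset.sum_congr rfl fun s hs => ?_
  unfold a
  rw [T_apply]
  by_cases h : symmDiff s {i} ∈ F <;> simp [h, hs]

end Pool.Agent.R194.HC
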