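import Mathlib
import Pool.Agent.R194.HC.Comb

set_option autoImplicit false

namespace Pool.Agent.R194.HC

open Finset

variable {n : ℕ}

lemma card_half (i : Fin n) :
    (((univ : Finset (Finset (Fin n))).filter (fun s => i ∈ s)).card : ℝ) = 2 ^ n / 2 := by
  rw [card_eq]
  have h1 : ∀ s, a (univ.filter (fun s => i ∈ s)) s = 1 / 2 + (1 / 2) * X i s := by
    intro s
    unfold a X; by_cases h : i ∈ s <;> simp [h]
    norm_num
  simp only [h1]
  rw [Finset.sum_add_distrib, ← Finset.mul_sum, sum_X]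
  simp
  ring

/-- the lexicographic initial segment of half size -/
lemma lex_half (m : ℕ) (L : Finset (Finset (Fin (m+1)))) (hcard : 2 * L.card = 2 ^ (m+1))
    (hL : ∀ x ∈ L, ∀ y ∉ L, ∃ i ∈ x, i ∉ y ∧ ∀ j < i, (j ∈ x ↔ j ∈ y)) :
    ∀ t, t ∈ L ↔ (0 : Fin (m+1)) ∈ t := by
  set H := (univ : Finset (Finset (Fin (m+1)))).filter (fun s => (0 : Fin (m+1)) ∈ s) with hH
  have hc : L.card = H.card := by
    have h1 := card_half (0 : Fin (m+1))
    rw [← hH] at h1
    have h2 : (2:ℝ) * L.card = 2 ^ (m+1) := by exact_mod_cast hcard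
    have h3 : (L.card : ℝ) = H.card := by rw [h1]; linarith
    exact_mod_cast h3
  have key : L ⊆ H ∨ H ⊆ L := by
    by_contra hcon
    push Not at hcon
    obtain ⟨h1, h2⟩ := hcon
    rw [Finset.not_subset] at h1 h2
    obtain ⟨x, hx, hx'⟩ := h1
    obtain ⟨y, hy, hy'⟩ := h2
    rw [hH, Finset.mem_filter] at hx' hy
    obtain ⟨i, hix, hiy, hj⟩ := hL x hx y hy'
    have hi0 : i ≠ 0 := by rintro rfl; exact hx' ⟨mem_univ _, hix⟩
    have h0 := hj 0 (Fin.pos_of_ne_zero hi0)
    exact hx' ⟨mem_univ _, h0.mpr hy.2⟩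
  have hLH : L = H := by
    rcases key with h | h
    · exact Finset.eq_of_subset_of_card_le h hc.ge
    · exact (Finset.eq_of_subset_of_card_le h hc.le).symm
  intro t
  rw [hLH, hH, Finset.mem_filter]
  simp

lemma bdry_half (m : ℕ) (L : Finset (Finset (Fin (m+1))))
    (h : ∀ t, t ∈ L ↔ (0 : Fin (m+1)) ∈ t) :
    ((L ×ˢ (Finset.univ : Finset (Fin (m+1)))).filter
      (fun p => symmDiff p.1 {p.2} ∉ L)).card = L.card := by
  have : (L ×ˢ (Finset.univ : Finset (Fin (m+1)))).filter (fun p => symmDiff p.1 {p.2} ∉ L) =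
      L ×ˢ {0} := by
    ext ⟨s, i⟩
    simp only [Finset.mem_filter, Finset.mem_product, Finset.mem_univ, and_true, h,
      Finset.mem_singleton, Finset.mem_symmDiff]
    constructor
    · rintro ⟨h0, h1⟩
      refine ⟨h0, ?_⟩
      by_contra hi
      exact h1 (Or.inl ⟨h0, fun h' => hi h'.symm⟩)
    · rintro ⟨h0, h1⟩
      subst h1
      refine ⟨h0, ?_⟩
      rintro (h' | h')
      · exact h'.2 rfl
      · exact h'.2 h0
  rw [this, Finset.card_product]
  simp

lemma mem_image_aut (m : ℕ) (L : Finset (Finset (Fin (m+1))))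
    (h : ∀ t, t ∈ L ↔ (0 : Fin (m+1)) ∈ t) (i : Fin (m+1)) (S t : Finset (Fin (m+1))) :
    t ∈ L.image (fun x => symmDiff (x.map (Equiv.swap 0 i).toEmbedding) S) ↔
      i ∈ symmDiff t S := by
  rw [Finset.mem_image]
  constructor
  · rintro ⟨x, hx, rfl⟩
    rw [symmDiff_symmDiff_cancel_right, Finset.mem_map_equiv]
    rw [h] at hx
    simpa using hx
  · intro hi
    refine ⟨(symmDiff t S).map (Equiv.swap 0 i).toEmbedding, ?_, ?_⟩
    · rw [h, Finset.mem_map_equiv]
      simpa using hi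
    · have : ((symmDiff t S).map (Equiv.swap 0 i).toEmbedding).map (Equiv.swap 0 i).toEmbedding
          = symmDiff t S := by
        ext j
        rw [Finset.mem_map_equiv, Finset.mem_map_equiv]
        simp
      rw [this, symmDiff_symmDiff_cancel_right]

theorem half_case (n : ℕ) (F L : Finset (Finset (Fin n))) (hF : 2 * F.card = 2 ^ n)
    (hcard : L.card = F.card)
    (hL : ∀ x ∈ L, ∀ y ∉ L, ∃ i ∈ x, i ∉ y ∧ ∀ j < i, (j ∈ x ↔ j ∈ y)) :
    ∃ σ : Equiv.Perm (Fin n), ∃ S : Finset (Fin n),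
      (((symmDiff F (L.image (fun x => symmDiff (x.map σ.toEmbedding) S))).card : ℤ) *
          (((F ×ˢ (Finset.univ : Finset (Fin n))).filter
                  (fun p => symmDiff p.1 {p.2} ∉ F)).card : ℤ) ≤
        2 ^ n * ((((F ×ˢ (Finset.univ : Finset (Fin n))).filter
                  (fun p => symmDiff p.1 {p.2} ∉ F)).card : ℤ) -
               (((L ×ˢ (Finset.univ : Finset (Fin n))).filter
                  (fun p => symmDiff p.1 {p.2} ∉ L)).card : ℤ))) ∧
      (((symmDiff F (L.image (fun x => symmDiff (x.map σ.toEmbedding) S))).card : ℤ) ≤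
          2 * ((((F ×ˢ (Finset.univ : Finset (Fin n))).filter
                  (fun p => symmDiff p.1 {p.2} ∉ F)).card : ℤ) -
               (((L ×ˢ (Finset.univ : Finset (Fin n))).filter
                  (fun p => symmDiff p.1 {p.2} ∉ L)).card : ℤ))) := by
  rcases n with _ | m
  · omega
  have hLc : 2 * L.card = 2 ^ (m+1) := by rw [hcard]; exact hF
  have hL0 := lex_half m L hLc hL
  have hbL := bdry_half m L hL0
  obtain ⟨i, -, hi⟩ := Finset.exists_max_image (univ : Finset (Fin (m+1)))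
    (fun i => |c F i|) ⟨0, mem_univ 0⟩
  have hmain := main_ineq F hF (|c F i|) (fun j => hi j (mem_univ j))
  rw [← bdry_eq] at hmain
  have hbL' : (2:ℝ) * (((L ×ˢ (Finset.univ : Finset (Fin (m+1)))).filter
                  (fun p => symmDiff p.1 {p.2} ∉ L)).card : ℝ) = 2 ^ (m+1) := by
    rw [hbL]; exact_mod_cast hLc
  -- the closest half cube
  obtain ⟨S, hS⟩ : ∃ S : Finset (Fin (m+1)),
      ((symmDiff F (L.image (fun x => symmDiff (x.map (Equiv.swap 0 i).toEmbedding) S))).card : ℝ)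
        = 2 ^ (m+1) / 2 - |c F i| := by
    rcases le_total 0 (c F i) with h | h
    · refine ⟨∅, ?_⟩
      rw [abs_of_nonneg h]
      refine dist_pos F _ hF i fun t => ?_
      rw [mem_image_aut m L hL0, Finset.mem_symmDiff]
      simp
    · refine ⟨{i}, ?_⟩
      rw [abs_of_nonpos h, sub_neg_eq_add]
      refine dist_neg F _ hF i fun t => ?_
      rw [mem_image_aut m L hL0, Finset.mem_symmDiff]
      simp
  refine ⟨Equiv.swap 0 i, S, ?_⟩
  set d := (symmDiff F (L.image (fun x => symmDiff (x.map (Equiv.swap 0 i).toEmbedding) S))).card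
  set bF := ((F ×ˢ (Finset.univ : Finset (Fin (m+1)))).filter
                  (fun p => symmDiff p.1 {p.2} ∉ F)).card
  set bL := ((L ×ˢ (Finset.univ : Finset (Fin (m+1)))).filter
                  (fun p => symmDiff p.1 {p.2} ∉ L)).card
  have hp : (0:ℝ) < 2 ^ (m+1) := by positivity
  have hd0 : (0:ℝ) ≤ d := Nat.cast_nonneg _
  have hb0 : (0:ℝ) ≤ bF := Nat.cast_nonneg _
  generalize hN : (2:ℝ) ^ (m+1) = N at *
  have e1 : (d:ℝ) * bF ≤ N * (bF - bL) := by
    rw [hS]; nlinarith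
  have e2 : (d:ℝ) ≤ 2 * (bF - bL) := by
    have hM : |c F i| ≤ N / 2 := by linarith
    have hb1 : N / 2 ≤ (bF:ℝ) := by
      have : N * N ≤ 2 * N * bF := by nlinarith
      nlinarith
    have hb2 : (0:ℝ) < bF := by linarith
    have h3 : (bL:ℝ) ≤ bF := by linarith
    have h4 : (d:ℝ) * bF ≤ (2 * (bF - bL)) * bF := by nlinarith
    exact le_of_mul_le_mul_right h4 hb2
  constructor
  · have : ((d:ℤ):ℝ) * ((bF:ℤ):ℝ) ≤ ((2:ℤ):ℝ) ^ (m+1) * (((bF:ℤ):ℝ) - ((bL:ℤ):ℝ)) := by
      push_cast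
      rw [hN]
      exact e1
    exact_mod_cast this
  · have : ((d:ℤ):ℝ) ≤ 2 * (((bF:ℤ):ℝ) - ((bL:ℤ):ℝ)) := by
      push_cast
      exact e2
    exact_mod_cast this

end Pool.Agent.R194.HC
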